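import Mathlib
import Pool.Agent.Helper43.RK.St

/-!
# Module RH of project RK: big cell of the rank one group `H1`
-/

set_option autoImplicit false

namespace Pool.Agent.Helper32.RK

open Pool.Agent.Helper43.RK

variable {R : Type} [CommRing R] {G : Type} [Group G]

/-- `h` acts on `τ_λ a_μ` by the matrix `(p q; r s)` and on `X_λ b_{μ ȳ}` correspondingly -/
structure PP (D : Dt R G) (h : G) (p q r s : R) : Prop where
  fp : D.bar p = p
  fq : D.bar q = q
  fr : D.bar r = r
  fs : D.bar s = s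
  det : p * s - q * r = 1
  P1 : ∀ l m, D.bar l = l → D.bar m = m →
    h⁻¹ * (D.tau l * D.a m) * h = D.tau (l * p + m * r) * D.a (l * q + m * s)
  P2 : ∀ l m, D.bar l = l → D.bar m = m →
    h⁻¹ * (D.X l * D.b (m * (D.yb : R))) * h =
      D.X (l * s + m * q) * D.b ((l * r + m * p) * (D.yb : R))

theorem PP.mul {D : Dt R G} {h h' : G} {p q r s p' q' r' s' : R} (H : PP D h p q r s)
    (H' : PP D h' p' q' r' s') :
    PP D (h * h') (p * p' + q * r') (p * q' + q * s') (r * p' + s * r') (r * q' + s * s') := by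
  have h1 := H.fp
  have h2 := H.fq
  have h3 := H.fr
  have h4 := H.fs
  have h1' := H'.fp
  have h2' := H'.fq
  have h3' := H'.fr
  have h4' := H'.fs
  refine ⟨?_, ?_, ?_, ?_, ?_, ?_, ?_⟩
  · simp only [map_add, map_mul, h1, h2, h1', h3']
  · simp only [map_add, map_mul, h1, h2, h2', h4']
  · simp only [map_add, map_mul, h3, h4, h1', h3']
  · simp only [map_add, map_mul, h3, h4, h2', h4']
  · linear_combination (p' * s' - q' * r') * H.det + H'.det
  · intro l m hl hm
    have e1 := H.P1 l m hl hm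
    have e2 := H'.P1 (l * p + m * r) (l * q + m * s)
      (by simp only [map_add, map_mul, h1, h3, hl, hm])
      (by simp only [map_add, map_mul, h2, h4, hl, hm])
    have e3 : (h * h')⁻¹ * (D.tau l * D.a m) * (h * h') =
        h'⁻¹ * (h⁻¹ * (D.tau l * D.a m) * h) * h' := by group
    rw [e3, e1, e2]
    congr 2 <;> ring
  · intro l m hl hm
    have e1 := H.P2 l m hl hm
    have e2 := H'.P2 (l * s + m * q) (l * r + m * p)
      (by simp only [map_add, map_mul, h2, h4, hl, hm])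
      (by simp only [map_add, map_mul, h1, h3, hl, hm])
    have e3 : (h * h')⁻¹ * (D.X l * D.b (m * (D.yb : R))) * (h * h') =
        h'⁻¹ * (h⁻¹ * (D.X l * D.b (m * (D.yb : R))) * h) * h' := by group
    rw [e3, e1, e2]
    congr 2 <;> ring

theorem PP.inv {D : Dt R G} {h : G} {p q r s : R} (H : PP D h p q r s) :
    PP D h⁻¹ s (-q) (-r) p := by
  have h1 := H.fp
  have h2 := H.fq
  have h3 := H.fr
  have h4 := H.fs
  have hd := H.det
  refine ⟨h4, ?_, ?_, h1, ?_, ?_, ?_⟩
  · simp only [map_neg, h2]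
  · simp only [map_neg, h3]
  · linear_combination hd
  · intro l m hl hm
    have e1 := H.P1 (l * s + m * (-r)) (l * (-q) + m * p)
      (by simp only [map_add, map_mul, map_neg, h3, h4, hl, hm])
      (by simp only [map_add, map_mul, map_neg, h1, h2, hl, hm])
    have e2 : (l * s + m * (-r)) * p + (l * (-q) + m * p) * r = l := by
      linear_combination l * hd
    have e3 : (l * s + m * (-r)) * q + (l * (-q) + m * p) * s = m := by
      linear_combination m * hd
    rw [e2, e3] at e1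
    rw [← e1]
    group
  · intro l m hl hm
    have e1 := H.P2 (l * p + m * (-q)) (l * (-r) + m * s)
      (by simp only [map_add, map_mul, map_neg, h1, h2, hl, hm])
      (by simp only [map_add, map_mul, map_neg, h3, h4, hl, hm])
    have e2 : (l * p + m * (-q)) * s + (l * (-r) + m * s) * q = l := by
      linear_combination l * hd
    have e3 : (l * p + m * (-q)) * r + (l * (-r) + m * s) * p = m := by
      linear_combination m * hd
    rw [e2, e3] at e1
    rw [← e1]
    group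

theorem PP.one (D : Dt R G) : PP D 1 1 0 0 1 := by
  refine ⟨map_one _, map_zero _, map_zero _, map_one _, by ring, ?_, ?_⟩
  · intro l m _ _
    have e2 : l * 1 + m * 0 = l := by ring
    have e3 : l * 0 + m * 1 = m := by ring
    rw [e2, e3]; group
  · intro l m _ _
    have e2 : l * 1 + m * 0 = l := by ring
    have e3 : l * 0 + m * 1 = m := by ring
    rw [e2, e3]; group

/-- the consequences of the hypotheses used below -/
structure Fc (D : Dt R G) : Prop where
  nn : D.n * D.n = 1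
  gd : ∀ l, D.bar l = l → D.Gd l
  co : ∀ l m, D.bar l = l → D.bar m = m → D.a m * D.b l * D.a m * D.b l = D.tau (l * m)
  X2 : ∀ l, D.bar l = l → D.X l * D.X l = 1
  Xadd : ∀ l, D.bar l = l → ∀ m, D.X (l + m) = D.X l * D.X m
  Xa : ∀ l, D.bar l = l → ∀ r, D.X l * D.a r * D.X l =
    D.a (r + l * ((D.y : R) * (D.yb : R) * (D.y : R)) *
      (((D.y⁻¹ : Rˣ) : R) * r + D.bar (((D.y⁻¹ : Rˣ) : R) * r)))
  Xb : ∀ l, D.bar l = l → ∀ r, D.X l * D.b r * D.X l =
    D.b (r + l * (D.yb : R) * ((D.y : R) * r + D.bar ((D.y : R) * r)))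
  Xc : ∀ l, D.bar l = l → ∀ m, D.bar m = m → D.a (m * (D.y : R)) * D.b (l * (D.yb : R)) *
    D.a (m * (D.y : R)) * D.b (l * (D.yb : R)) = D.X (l * m)

namespace Fc

variable {D : Dt R G} (F : Fc D)

include F

theorem t2 (l : R) : D.tau l * D.tau l = 1 := by
  have h := F.nn
  have e : D.tau l * D.tau l = D.n * D.a l * (D.n * D.n) * D.a l * D.n := by
    simp only [Dt.tau]; group
  rw [e, h]
  have e2 : D.n * D.a l * 1 * D.a l * D.n = D.n * (D.a l * D.a l) * D.n := by group
  rw [e2, D.aa, mul_one, h]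

theorem tadd (l m : R) : D.tau (l + m) = D.tau l * D.tau m := by
  have h := F.nn
  have e : D.tau l * D.tau m = D.n * D.a l * (D.n * D.n) * D.a m * D.n := by
    simp only [Dt.tau]; group
  rw [e, h, Dt.tau, D.a_add]; group

theorem t0 : D.tau 0 = 1 := by
  rw [Dt.tau, D.a0, mul_one, F.nn]

/-- `a r τ = τ a (r + l Tr r)` -/
theorem at' (l : R) (hl : D.bar l = l) (r : R) :
    D.a r * D.tau l = D.tau l * D.a (r + l * (r + D.bar r)) := by
  have h := (F.gd l hl).ta r
  rw [← h]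
  have e : D.tau l * (D.tau l * D.a r * D.tau l) = (D.tau l * D.tau l) * D.a r * D.tau l := by group
  rw [e, F.t2, one_mul]

theorem bt' (l : R) (hl : D.bar l = l) (r : R) :
    D.b r * D.tau l = D.tau l * D.b (r + l * (r + D.bar r)) := by
  have h := (F.gd l hl).tb r
  rw [← h]
  have e : D.tau l * (D.tau l * D.b r * D.tau l) = (D.tau l * D.tau l) * D.b r * D.tau l := by group
  rw [e, F.t2, one_mul]

theorem aX' (l : R) (hl : D.bar l = l) (r : R) :
    D.a r * D.X l = D.X l * D.a (r + l * ((D.y : R) * (D.yb : R) * (D.y : R)) *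
      (((D.y⁻¹ : Rˣ) : R) * r + D.bar (((D.y⁻¹ : Rˣ) : R) * r))) := by
  rw [← F.Xa l hl r]
  have e : D.X l * (D.X l * D.a r * D.X l) = (D.X l * D.X l) * D.a r * D.X l := by group
  rw [e, F.X2 l hl, one_mul]

theorem bX' (l : R) (hl : D.bar l = l) (r : R) :
    D.b r * D.X l = D.X l * D.b (r + l * (D.yb : R) * ((D.y : R) * r + D.bar ((D.y : R) * r))) := by
  rw [← F.Xb l hl r]
  have e : D.X l * (D.X l * D.b r * D.X l) = (D.X l * D.X l) * D.b r * D.X l := by group
  rw [e, F.X2 l hl, one_mul]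

theorem X0 : D.X 0 = 1 := by
  have h := F.Xadd 0 (map_zero _) 0
  rw [add_zero, F.X2 0 (map_zero _)] at h
  exact h

theorem genA (g : R) (hg : D.bar g = g) : PP D (D.a (g * (D.y : R))) 1 g 0 1 := by
  refine ⟨map_one _, hg, map_zero _, map_one _, by ring, ?_, ?_⟩
  · intro l m hl hm
    rw [D.ainv]
    have e1 : D.a (g * (D.y : R)) * (D.tau l * D.a m) * D.a (g * (D.y : R)) =
        (D.a (g * (D.y : R)) * D.tau l) * (D.a m * D.a (g * (D.y : R))) := by group
    rw [e1, F.at' l hl, mul_assoc, ← D.a_add, ← D.a_add, map_mul, hg, D.bary]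
    have e2 : l * 1 + m * 0 = l := by ring
    rw [e2]
    congr 2
    have h1 := D.hy
    have h2 := D.two (g * (D.y : R))
    linear_combination l * g * h1 + h2
  · intro l m hl hm
    rw [D.ainv]
    have e1 : D.a (g * (D.y : R)) * (D.X l * D.b (m * (D.yb : R))) * D.a (g * (D.y : R)) =
        (D.a (g * (D.y : R)) * D.X l) * D.b (m * (D.yb : R)) * D.a (g * (D.y : R)) := by group
    have e3 : ((D.y⁻¹ : Rˣ) : R) * (g * (D.y : R)) = g := by
      have h1 : ((D.y⁻¹ : Rˣ) : R) * (D.y : R) = 1 := Units.inv_mul _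
      linear_combination g * h1
    rw [e1, F.aX' l hl, e3, hg, D.two, mul_zero, add_zero]
    have e4 := F.Xc m hm g hg
    have e5 : D.X l * D.a (g * (D.y : R)) * D.b (m * (D.yb : R)) * D.a (g * (D.y : R)) =
        D.X l * (D.a (g * (D.y : R)) * D.b (m * (D.yb : R)) * D.a (g * (D.y : R)) *
          D.b (m * (D.yb : R))) * (D.b (m * (D.yb : R)))⁻¹ := by group
    rw [e5, e4, D.binv, ← F.Xadd l hl]
    congr 2 <;> ring

theorem genB (g : R) (hg : D.bar g = g) : PP D (D.b g) 1 0 g 1 := by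
  refine ⟨map_one _, map_zero _, hg, map_one _, by ring, ?_, ?_⟩
  · intro l m hl hm
    rw [D.binv]
    have e1 : D.b g * (D.tau l * D.a m) * D.b g = (D.b g * D.tau l) * D.a m * D.b g := by group
    rw [e1, F.bt' l hl, hg, D.two, mul_zero, add_zero]
    have e4 := F.co g m hg hm
    have e5 : D.tau l * D.b g * D.a m * D.b g =
        D.tau l * ((D.a m)⁻¹ * (D.a m * D.b g * D.a m * D.b g)) := by group
    have hgm : D.bar (g * m) = g * m := by rw [map_mul, hg, hm]
    rw [e5, e4, D.ainv, F.at' (g * m) hgm m, hm, D.two, mul_zero, add_zero, ← mul_assoc,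
      ← F.tadd]
    congr 2 <;> ring
  · intro l m hl hm
    rw [D.binv]
    have e1 : D.b g * (D.X l * D.b (m * (D.yb : R))) * D.b g =
        (D.b g * D.X l) * (D.b (m * (D.yb : R)) * D.b g) := by group
    rw [e1, F.bX' l hl, map_mul, hg, D.bary, mul_assoc, ← D.b_add, ← D.b_add]
    have e2 : l * 1 + m * 0 = l := by ring
    rw [e2]
    congr 2
    have h1 := D.hy
    have h2 := D.two g
    linear_combination l * (D.yb : R) * g * h1 + h2

theorem half (hRS1 : (∀ r : R, ∃ α β : R, D.bar α = α ∧ D.bar β = β ∧ r = α + β * (D.y : R)) ∧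
    (∀ r : R, ∃ α β : R, D.bar α = α ∧ D.bar β = β ∧ r = α + β * (D.yb : R)))
    {t : G} {u v : R} (H : PP D t u 0 0 v) :
    (∀ r, ∃ r', t⁻¹ * D.a r * t = D.a r') ∧ (∀ r, ∃ r', t⁻¹ * D.b r * t = D.b r') := by
  have b0 : D.bar (0 : R) = 0 := map_zero _
  have b1 : D.bar (1 : R) = 1 := map_one _
  have ha : ∀ m, D.bar m = m → t⁻¹ * D.a m * t = D.a (m * v) := by
    intro m hm
    have h := H.P1 0 m b0 hm
    have e1 : (0 : R) * u + m * 0 = 0 := by ring
    have e2 : (0 : R) * 0 + m * v = m * v := by ring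
    rw [e1, e2, F.t0, one_mul, one_mul] at h
    exact h
  have ht : ∀ l, D.bar l = l → t⁻¹ * D.tau l * t = D.tau (l * u) := by
    intro l hl
    have h := H.P1 l 0 hl b0
    have e1 : l * u + 0 * 0 = l * u := by ring
    have e2 : l * 0 + 0 * v = 0 := by ring
    rw [e1, e2, D.a0, mul_one, mul_one] at h
    exact h
  have hX : ∀ l, D.bar l = l → t⁻¹ * D.X l * t = D.X (l * v) := by
    intro l hl
    have h := H.P2 l 0 hl b0
    have e1 : l * v + 0 * 0 = l * v := by ring
    have e2 : (l * 0 + 0 * u) * (D.yb : R) = 0 := by ring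
    have e3 : (0 : R) * (D.yb : R) = 0 := by ring
    rw [e1, e2, e3, D.b0, mul_one, mul_one] at h
    exact h
  have hb : ∀ m, D.bar m = m → t⁻¹ * D.b (m * (D.yb : R)) * t = D.b (m * u * (D.yb : R)) := by
    intro m hm
    have h := H.P2 0 m b0 hm
    have e1 : (0 : R) * v + m * 0 = 0 := by ring
    have e2 : ((0 : R) * 0 + m * u) * (D.yb : R) = m * u * (D.yb : R) := by ring
    rw [e1, e2, F.X0, one_mul, one_mul] at h
    exact h
  -- commutator of `a_m` and `X_l`
  have hey : (D.y : R) * (D.yb : R) * (((D.y⁻¹ : Rˣ) : R) + ((D.yb⁻¹ : Rˣ) : R)) = 1 := by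
    have h1 : (D.y : R) * ((D.y⁻¹ : Rˣ) : R) = 1 := Units.mul_inv _
    have h2 : (D.yb : R) * ((D.yb⁻¹ : Rˣ) : R) = 1 := Units.mul_inv _
    have h3 := D.hy
    linear_combination (D.yb : R) * h1 + (D.y : R) * h2 + h3
  have caX : ∀ l m, D.bar l = l → D.bar m = m →
      D.a m * D.X l * D.a m * D.X l = D.a (l * m * (D.y : R)) := by
    intro l m hl hm
    have e : D.a m * D.X l * D.a m * D.X l = D.a m * (D.X l * D.a m * D.X l) := by group
    rw [e, F.Xa l hl m, ← D.a_add, map_mul, D.bar_yinv, hm]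
    congr 1
    have h2 := D.two m
    linear_combination h2 + l * m * (D.y : R) * hey
  have cbt : ∀ l m, D.bar l = l → D.bar m = m →
      D.b (m * (D.yb : R)) * D.tau l * D.b (m * (D.yb : R)) * D.tau l = D.b (l * m) := by
    intro l m hl hm
    have e : D.b (m * (D.yb : R)) * D.tau l * D.b (m * (D.yb : R)) * D.tau l =
        D.b (m * (D.yb : R)) * (D.tau l * D.b (m * (D.yb : R)) * D.tau l) := by group
    rw [e, (F.gd l hl).tb, ← D.b_add, map_mul, D.bar_yb, hm]
    congr 1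
    have h2 := D.two (m * (D.yb : R))
    have h3 := D.hy
    linear_combination h2 + l * m * h3
  have hay : ∀ m, D.bar m = m → t⁻¹ * D.a (m * (D.y : R)) * t = D.a (v * (m * v) * (D.y : R)) := by
    intro m hm
    have hv := H.fs
    have hmv : D.bar (m * v) = m * v := by rw [map_mul, hm, hv]
    have e0 := caX 1 m b1 hm
    rw [one_mul] at e0
    have e1 := caX v (m * v) hv hmv
    rw [← e0, ← e1]
    have e2 : t⁻¹ * (D.a m * D.X 1 * D.a m * D.X 1) * t =
        (t⁻¹ * D.a m * t) * (t⁻¹ * D.X 1 * t) * (t⁻¹ * D.a m * t) * (t⁻¹ * D.X 1 * t) := by group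
    rw [e2, ha m hm, hX 1 b1, one_mul]
  have hbm : ∀ m, D.bar m = m → t⁻¹ * D.b m * t = D.b (u * (m * u)) := by
    intro m hm
    have hu := H.fp
    have hmu : D.bar (m * u) = m * u := by rw [map_mul, hm, hu]
    have e0 := cbt 1 m b1 hm
    rw [one_mul] at e0
    have e1 := cbt u (m * u) hu hmu
    rw [← e0, ← e1]
    have e2 : t⁻¹ * (D.b (m * (D.yb : R)) * D.tau 1 * D.b (m * (D.yb : R)) * D.tau 1) * t =
        (t⁻¹ * D.b (m * (D.yb : R)) * t) * (t⁻¹ * D.tau 1 * t) *
          (t⁻¹ * D.b (m * (D.yb : R)) * t) * (t⁻¹ * D.tau 1 * t) := by group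
    rw [e2, hb m hm, ht 1 b1, one_mul]
  refine ⟨?_, ?_⟩
  · intro r
    obtain ⟨α, β, h1, h2, h3⟩ := hRS1.1 r
    refine ⟨α * v + v * (β * v) * (D.y : R), ?_⟩
    rw [h3, D.a_add, D.a_add, ← ha α h1, ← hay β h2]
    group
  · intro r
    obtain ⟨α, β, h1, h2, h3⟩ := hRS1.2 r
    refine ⟨u * (α * u) + β * u * (D.yb : R), ?_⟩
    rw [h3, D.b_add, D.b_add, ← hbm α h1, ← hb β h2]
    group

theorem allH1 {h : G} (hh : h ∈ D.H1) : ∃ p q r s, PP D h p q r s := by
  unfold Dt.H1 at hh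
  induction hh using Subgroup.closure_induction with
  | mem x hx =>
    rcases hx with ⟨r, hr, rfl⟩ | ⟨r, hr, rfl⟩
    · exact ⟨_, _, _, _, F.genA r hr⟩
    · exact ⟨_, _, _, _, F.genB r hr⟩
  | one => exact ⟨_, _, _, _, PP.one D⟩
  | mul x y _ _ h1 h2 =>
    obtain ⟨_, _, _, _, h1⟩ := h1
    obtain ⟨_, _, _, _, h2⟩ := h2
    exact ⟨_, _, _, _, h1.mul h2⟩
  | inv x _ h1 =>
    obtain ⟨_, _, _, _, h1⟩ := h1
    exact ⟨_, _, _, _, h1.inv⟩

end Fc

theorem PP.congr {D : Dt R G} {h : G} {p q r s p' q' r' s' : R} (H : PP D h p q r s)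
    (h1 : p = p') (h2 : q = q') (h3 : r = r') (h4 : s = s') : PP D h p' q' r' s' := by
  subst h1; subst h2; subst h3; subst h4; exact H

theorem hRH : StRH := by
  intro hRS1 hRX hSL2 R _ _ G _ D hn hG hC h hh
  have hX := hRX R G D hn hG hC
  have F : Fc D := ⟨hn, hG, hC, fun l hl => (hX l hl).1, fun l hl => (hX l hl).2.1,
    fun l hl => (hX l hl).2.2.1, fun l hl => (hX l hl).2.2.2.1, fun l hl => (hX l hl).2.2.2.2⟩
  have hR := (hRS1 R G D).2.2
  obtain ⟨p, q, r, s, H⟩ := F.allH1 hh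
  let k : Subring R := RingHom.eqLocus D.bar (RingHom.id R)
  have hk : ∀ x, D.bar x = x → x ∈ k := fun x hx => hx
  have hk' : ∀ x : k, D.bar (x : R) = (x : R) := fun x => x.2
  have : Finite k := inferInstance
  obtain ⟨α, β, γ, u, e1, e2, e3, e4⟩ := hSL2 k ⟨p, hk p H.fp⟩ ⟨q, hk q H.fq⟩ ⟨r, hk r H.fr⟩
    ⟨s, hk s H.fs⟩ (Subtype.ext H.det)
  have f1 : p = (1 + (α : R) * β) * ((u : k) : R) := congrArg Subtype.val e1
  have f2 : q = ((1 + (α : R) * β) * γ + α) * (((u⁻¹ : kˣ) : k) : R) := congrArg Subtype.val e2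
  have f3 : r = (β : R) * ((u : k) : R) := congrArg Subtype.val e3
  have f4 : s = ((β : R) * γ + 1) * (((u⁻¹ : kˣ) : k) : R) := congrArg Subtype.val e4
  have huv : ((u : k) : R) * (((u⁻¹ : kˣ) : k) : R) = 1 := congrArg Subtype.val (Units.mul_inv u)
  have HE := ((F.genA (α : R) (hk' α)).mul (F.genB (β : R) (hk' β))).mul (F.genA (γ : R) (hk' γ))
  have HT := (HE.inv.mul H).congr (p' := ((u : k) : R)) (q' := 0) (r' := 0)
    (s' := (((u⁻¹ : kˣ) : k) : R)) (by rw [f1, f3]; ring) (by rw [f2, f4]; ring)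
    (by rw [f1, f3]; ring) (by rw [f2, f4]; ring)
  have h1 := F.half hR HT
  have HI := HT.inv.congr (p' := (((u⁻¹ : kˣ) : k) : R)) (q' := 0) (r' := 0)
    (s' := ((u : k) : R)) rfl (by ring) (by ring) rfl
  have h2 := F.half hR HI
  refine ⟨(α : R), (β : R), (γ : R) * (D.y : R), _, ⟨h1.1, ?_, h1.2, ?_⟩, hk' α, ?_⟩
  · intro r
    obtain ⟨r', hr⟩ := h2.1 r
    exact ⟨r', by rw [← hr, inv_inv]⟩
  · intro r
    obtain ⟨r', hr⟩ := h2.2 r
    exact ⟨r', by rw [← hr, inv_inv]⟩
  · group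

end Pool.Agent.Helper32.RK
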